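import Mathlib

set_option autoImplicit false

namespace Pool.Agent.Results.MP_37b92f_co.UniversalSequences

open Finset Filter Topology

/-- An ordered graph, up to isomorphism: a graph on `{0, …, n-1}` with the usual order. -/
abbrev OGraph : Type := Σ n : ℕ, SimpleGraph (Fin n)

/-- The number of edges. -/
noncomputable def e (G : OGraph) : ℕ := G.2.edgeSet.ncard

/-- Embeddings of ordered graphs. -/
def IsEmb (H G : OGraph) (φ : Fin H.1 → Fin G.1) : Prop :=
  StrictMono φ ∧ ∀ u v, H.2.Adj u v → G.2.Adj (φ u) (φ v)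

/-- The subgraph `G'` (with the inherited order) is `F`-free. -/
def Free (F G : OGraph) (G' : G.2.Subgraph) : Prop :=
  ¬ ∃ φ : Fin F.1 → Fin G.1, StrictMono φ ∧ (∀ u, φ u ∈ G'.verts) ∧
    ∀ u v, F.2.Adj u v → G'.Adj (φ u) (φ v)

/-- `ρ_<(F, G)`. -/
noncomputable def rho (F G : OGraph) : ℝ :=
  sSup {r | ∃ G' : G.2.Subgraph, Free F G G' ∧ r = (G'.edgeSet.ncard : ℝ) / e G}

/-- The relative Turán density `ρ_<(F)`. -/
noncomputable def rhoInf (F : OGraph) : ℝ := sInf {r | ∃ G : OGraph, 1 ≤ e G ∧ r = rho F G}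

/-- Universal sequences. -/
def Universal (G : ℕ → OGraph) : Prop :=
  (∀ n, 1 ≤ e (G n)) ∧ ∀ F : OGraph, Tendsto (fun n => rho F (G n)) atTop (𝓝 (rhoInf F))

/-- A random embedding `H → G`, given by its law. -/
structure RandEmb (H G : OGraph) where
  /-- the probabilities -/
  p : (Fin H.1 → Fin G.1) → ℝ
  nonneg : ∀ φ, 0 ≤ p φ
  sum_one : ∑ φ, p φ = 1
  supp : ∀ φ, p φ ≠ 0 → IsEmb H G φ

/-- The pair `x` of vertices of `G` belongs to the image `φ(H)` of the edge set of `H`. -/
def Hits (H G : OGraph) (φ : Fin H.1 → Fin G.1) (x : Sym2 (Fin G.1)) : Prop :=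
  ∃ u v, H.2.Adj u v ∧ x = s(φ u, φ v)

open Classical in
/-- `P(x ∈ Φ(H))`. -/
noncomputable def RandEmb.prob {H G : OGraph} (Φ : RandEmb H G) (x : Sym2 (Fin G.1)) : ℝ :=
  ∑ φ ∈ univ.filter (fun φ => Hits H G φ x), Φ.p φ

/-- The maximum over the edges of `G` of `P(x ∈ Φ(H))`. -/
noncomputable def RandEmb.maxProb {H G : OGraph} (Φ : RandEmb H G) : ℝ :=
  ⨆ x : G.2.edgeSet, Φ.prob x

/-- `G` contains a complete graph on `M` vertices. -/
def Contains (G : OGraph) (M : ℕ) : Prop :=
  ∃ φ : Fin M → Fin G.1, StrictMono φ ∧ ∀ u v, u ≠ v → G.2.Adj (φ u) (φ v)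

/-- The complete ordered graph. -/
def KK (M : ℕ) : OGraph := ⟨M, ⊤⟩

lemma rho_nonneg (F G : OGraph) : 0 ≤ rho F G := by
  apply Real.sSup_nonneg
  rintro r ⟨G', -, rfl⟩
  positivity

lemma sub_le (G : OGraph) (G' : G.2.Subgraph) : G'.edgeSet.ncard ≤ e G :=
  Set.ncard_le_ncard G'.edgeSet_subset (Set.toFinite _)

lemma rhoInf_lt (M : ℕ) (hM : 1 ≤ e (KK M)) : rhoInf (KK M) < 1 := by
  have h1 : rhoInf (KK M) ≤ rho (KK M) (KK M) := by
    apply csInf_le
    · refine ⟨0, ?_⟩
      rintro r ⟨G, -, rfl⟩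
      exact rho_nonneg _ _
    · exact ⟨KK M, hM, rfl⟩
  have hpos : (0 : ℝ) < e (KK M) := by exact_mod_cast hM
  have h2 : rho (KK M) (KK M) ≤ ((e (KK M) : ℝ) - 1) / e (KK M) := by
    apply Real.sSup_le
    · rintro r ⟨G', hG', rfl⟩
      apply div_le_div_of_nonneg_right _ hpos.le
      have h3 : G'.edgeSet.ncard < e (KK M) := by
        refine lt_of_le_of_ne (sub_le _ _) ?_
        intro h4
        apply hG'
        have h5 : G'.edgeSet = (KK M).2.edgeSet :=
          Set.eq_of_subset_of_ncard_le G'.edgeSet_subset h4.ge (Set.toFinite _)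
        have h6 : ∀ u v : Fin M, u ≠ v → G'.Adj u v := by
          intro u v huv
          have : s(u, v) ∈ G'.edgeSet := by
            rw [h5]
            exact huv
          exact this
        -- all vertices are in the subgraph, as there is an edge
        have h7 : ∃ a b : Fin M, a ≠ b := by
          have : (KK M).2.edgeSet.Nonempty := by
            rw [← Set.ncard_pos (Set.toFinite _)]
            exact hM
          obtain ⟨x, hx⟩ := this
          induction x using Sym2.ind with
          | _ a b =>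
            have hx' : (KK M).2.Adj a b := hx
            exact ⟨a, b, hx'.ne⟩
        obtain ⟨a, b, hab⟩ := h7
        refine ⟨id, strictMono_id, fun u => ?_, fun u v huv => h6 u v huv.ne⟩
        by_cases hu : u = a
        · exact G'.edge_vert (h6 u b (by rw [hu]; exact hab))
        · exact G'.edge_vert (h6 u a hu)
      have h4 : (G'.edgeSet.ncard : ℝ) + 1 ≤ e (KK M) := by exact_mod_cast h3
      linarith
    · apply div_nonneg _ hpos.le
      have : (1 : ℝ) ≤ e (KK M) := by exact_mod_cast hM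
      linarith
  have h3 : ((e (KK M) : ℝ) - 1) / e (KK M) < 1 := by
    rw [div_lt_one hpos]
    linarith
  linarith

lemma contains_of_rho_lt (G : OGraph) (hG : 1 ≤ e G) (M : ℕ) (h : rho (KK M) G < 1) :
    Contains G M := by
  by_contra hcon
  have hpos : (0 : ℝ) < e G := by exact_mod_cast hG
  have h1 : (1 : ℝ) ≤ rho (KK M) G := by
    apply le_csSup
    · refine ⟨1, ?_⟩
      rintro r ⟨G', -, rfl⟩
      rw [div_le_one hpos]
      exact_mod_cast sub_le G G'
    · refine ⟨⊤, ?_, ?_⟩
      · rintro ⟨φ, hφ, -, hadj⟩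
        exact hcon ⟨φ, hφ, fun u v huv => hadj u v huv⟩
      · rw [SimpleGraph.Subgraph.edgeSet_top]
        exact (div_self hpos.ne').symm
  linarith

lemma one_le_e_KK (M : ℕ) : 1 ≤ e (KK (M + 2)) := by
  unfold e
  rw [Nat.succ_le_iff, Set.ncard_pos (Set.toFinite _)]
  refine ⟨s((0 : Fin (M + 2)), (1 : Fin (M + 2))), ?_⟩
  have h : (KK (M + 2)).2.Adj (0 : Fin (M + 2)) (1 : Fin (M + 2)) := by
    show (0 : Fin (M + 2)) ≠ 1
    intro h
    have := congrArg Fin.val h
    simp at this
  exact h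

lemma Contains.mono {G : OGraph} {M N : ℕ} (h : Contains G N) (hMN : M ≤ N) : Contains G M := by
  obtain ⟨φ, hφ, hadj⟩ := h
  refine ⟨fun u => φ (Fin.castLE hMN u), fun u v huv => hφ huv, fun u v huv => hadj _ _ ?_⟩
  intro h
  exact huv (Fin.castLE_injective hMN h)

lemma eventually_contains (G : ℕ → OGraph) (hG : Universal G) (M : ℕ) :
    ∀ᶠ n in atTop, Contains (G n) M := by
  have h1 := hG.2 (KK (M + 2))
  have h2 := h1.eventually (gt_mem_nhds (rhoInf_lt (M + 2) (one_le_e_KK M)))
  filter_upwards [h2] with n hn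
  exact (contains_of_rho_lt (G n) (hG.1 n) (M + 2) hn).mono (by omega)

lemma e_ge (G : OGraph) (M : ℕ) (h : Contains G (M + 1)) : M ≤ e G := by
  obtain ⟨φ, hφ, hadj⟩ := h
  unfold e
  have h1 : (Set.range (fun i : Fin M => s(φ 0, φ i.succ))).ncard = M := by
    rw [← Set.image_univ, Set.ncard_image_of_injective, Set.ncard_univ, Nat.card_eq_fintype_card,
      Fintype.card_fin]
    intro i j hij
    have hij' : s(φ 0, φ i.succ) = s(φ 0, φ j.succ) := hij
    rw [Sym2.eq_iff] at hij'
    rcases hij' with h | h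
    · exact Fin.succ_injective _ (hφ.injective h.2)
    · exact absurd (hφ.injective h.1) (Fin.succ_ne_zero _).symm
  rw [← h1]
  apply Set.ncard_le_ncard _ (Set.toFinite _)
  rintro _ ⟨i, rfl⟩
  exact hadj _ _ (Fin.succ_ne_zero _).symm

/-- A random embedding with small probabilities. -/
lemma exists_randEmb (H G : OGraph) (hG : 1 ≤ e G) (k : ℕ) (hk : 1 ≤ k)
    (hc : Contains G (k * H.1)) : ∃ Φ : RandEmb H G, 0 ≤ Φ.maxProb ∧ Φ.maxProb ≤ 1 / k := by
  classical
  obtain ⟨φ, hφ, hadj⟩ := hc
  have hlt : ∀ (i : Fin k) (j : Fin H.1), (i : ℕ) * H.1 + j < k * H.1 := by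
    intro i j
    have h1 : ((i : ℕ) + 1) * H.1 ≤ k * H.1 := Nat.mul_le_mul_right _ i.2
    have h2 := j.2
    nlinarith
  let ψ : Fin k → Fin H.1 → Fin G.1 := fun i j => φ ⟨_, hlt i j⟩
  have hψ : ∀ i, IsEmb H G (ψ i) := by
    intro i
    refine ⟨fun a b hab => hφ ?_, fun u v huv => hadj _ _ ?_⟩
    · rw [Fin.lt_def]
      have : (a : ℕ) < b := hab
      show (i : ℕ) * H.1 + a < (i : ℕ) * H.1 + b
      omega
    · intro h
      have h1 : (i : ℕ) * H.1 + u = (i : ℕ) * H.1 + v := Fin.mk.inj_iff.1 h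
      exact huv.ne (Fin.ext (by omega))
  have hdis : ∀ i i' j j', ψ i j = ψ i' j' → i = i' := by
    intro i i' j j' h
    have h1 : (i : ℕ) * H.1 + j = (i' : ℕ) * H.1 + j' := Fin.mk.inj_iff.1 (hφ.injective h)
    have h2 := j.2
    have h3 := j'.2
    apply Fin.ext
    rcases Nat.lt_trichotomy (i : ℕ) i' with h' | h' | h'
    · have : ((i : ℕ) + 1) * H.1 ≤ i' * H.1 := Nat.mul_le_mul_right _ h'
      nlinarith
    · exact h'
    · have : ((i' : ℕ) + 1) * H.1 ≤ i * H.1 := Nat.mul_le_mul_right _ h'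
      nlinarith
  have hk0 : (0 : ℝ) < k := by exact_mod_cast hk
  let Φ : RandEmb H G :=
    { p := fun f => ∑ i : Fin k, if f = ψ i then (1 / k : ℝ) else 0
      nonneg := fun f => Finset.sum_nonneg (fun i _ => by split_ifs <;> positivity)
      sum_one := by
        rw [Finset.sum_comm]
        have : ∀ i : Fin k, ∑ f : Fin H.1 → Fin G.1, (if f = ψ i then (1 / k : ℝ) else 0) =
            1 / k := by
          intro i
          rw [Finset.sum_ite_eq']
          simp
        rw [Finset.sum_congr rfl (fun i _ => this i), Finset.sum_const, card_univ,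
          Fintype.card_fin, nsmul_eq_mul]
        field_simp
      supp := by
        intro f hf
        by_contra hne
        apply hf
        apply Finset.sum_eq_zero
        intro i _
        rw [if_neg]
        rintro rfl
        exact hne (hψ i) }
  have hprob : ∀ x, 0 ≤ Φ.prob x ∧ Φ.prob x ≤ 1 / k := by
    intro x
    refine ⟨Finset.sum_nonneg (fun f _ => Φ.nonneg f), ?_⟩
    have h1 : Φ.prob x = ∑ i : Fin k, if Hits H G (ψ i) x then (1 / k : ℝ) else 0 := by
      show ∑ f ∈ univ.filter (fun f => Hits H G f x), ∑ i : Fin k,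
        (if f = ψ i then (1 / k : ℝ) else 0) = _
      rw [Finset.sum_comm]
      apply Finset.sum_congr rfl
      intro i _
      rw [Finset.sum_ite_eq']
      simp only [mem_filter, mem_univ, true_and]
    rw [h1, ← Finset.sum_filter, Finset.sum_const, nsmul_eq_mul]
    have h2 : (univ.filter (fun i => Hits H G (ψ i) x)).card ≤ 1 := by
      rw [Finset.card_le_one]
      intro i hi i' hi'
      obtain ⟨u, v, -, hx⟩ := (mem_filter.1 hi).2
      obtain ⟨u', v', -, hx'⟩ := (mem_filter.1 hi').2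
      rw [hx, Sym2.eq_iff] at hx'
      rcases hx' with h | h
      · exact hdis _ _ _ _ h.1
      · exact hdis _ _ _ _ h.1
    have h3 : ((univ.filter (fun i => Hits H G (ψ i) x)).card : ℝ) ≤ 1 := by exact_mod_cast h2
    calc _ ≤ 1 * (1 / k : ℝ) := mul_le_mul_of_nonneg_right h3 (by positivity)
      _ = 1 / k := one_mul _
  refine ⟨Φ, Real.iSup_nonneg (fun x => (hprob x).1), ?_⟩
  have hne : Nonempty G.2.edgeSet := by
    have : G.2.edgeSet.Nonempty := by
      rw [← Set.ncard_pos (Set.toFinite _)]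
      exact hG
    exact this.to_subtype
  exact ciSup_le (fun x => (hprob x).2)

/-- **Result.** Let `(G_n)` be a universal sequence of ordered graphs. Then for every ordered graph
`H` there are random embeddings `Φ_n : H → G_n`, for all `n ≥ N`, with
`max_x P(x ∈ Φ_n(H)) - e(H)/e(G_n) → 0`. Moreover each of the two terms tends to `0`. -/
theorem result (G : ℕ → OGraph) (hG : Universal G) (H : OGraph) :
    ∃ (N : ℕ) (Φ : ∀ n, RandEmb H (G (N + n))),
      Tendsto (fun n => (Φ n).maxProb - (e H : ℝ) / e (G (N + n))) atTop (𝓝 0) ∧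
      Tendsto (fun n => (Φ n).maxProb) atTop (𝓝 0) ∧
      Tendsto (fun n => (e H : ℝ) / e (G (N + n))) atTop (𝓝 0) := by
  classical
  obtain ⟨N, hN⟩ := eventually_atTop.1 (eventually_contains G hG (1 * H.1))
  let k : ℕ → ℕ := fun n => Nat.findGreatest (fun k => Contains (G (N + n)) (k * H.1)) (n + 1)
  have hk1 : ∀ n, 1 ≤ k n := fun n => Nat.le_findGreatest (by omega) (hN (N + n) (by omega))
  have hk2 : ∀ n, Contains (G (N + n)) (k n * H.1) := fun n =>
    Nat.findGreatest_spec (P := fun k => Contains (G (N + n)) (k * H.1)) (m := 1) (by omega)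
      (hN (N + n) (by omega))
  have hk3 : Tendsto k atTop atTop := by
    rw [tendsto_atTop]
    intro b
    obtain ⟨N', hN'⟩ := eventually_atTop.1 (eventually_contains G hG (b * H.1))
    filter_upwards [eventually_ge_atTop (max N' b)] with n hn
    have h1 : N' ≤ n := (le_max_left _ _).trans hn
    have h2 : b ≤ n := (le_max_right _ _).trans hn
    exact Nat.le_findGreatest (by omega) (hN' (N + n) (by omega))
  choose Φ hΦ0 hΦ1 using fun n => exists_randEmb H (G (N + n)) (hG.1 _) (k n) (hk1 n) (hk2 n)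
  have ht1 : Tendsto (fun n => (Φ n).maxProb) atTop (𝓝 0) := by
    have h1 : Tendsto (fun n => 1 / (k n : ℝ)) atTop (𝓝 0) :=
      tendsto_const_nhds.div_atTop (tendsto_natCast_atTop_atTop.comp hk3)
    exact squeeze_zero hΦ0 hΦ1 h1
  have ht2 : Tendsto (fun n => (e H : ℝ) / e (G (N + n))) atTop (𝓝 0) := by
    apply tendsto_const_nhds.div_atTop
    have h1 : Tendsto (fun n => e (G (N + n))) atTop atTop := by
      rw [tendsto_atTop]
      intro b
      obtain ⟨N', hN'⟩ := eventually_atTop.1 (eventually_contains G hG (b + 1))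
      filter_upwards [eventually_ge_atTop N'] with n hn
      exact e_ge _ _ (hN' (N + n) (by omega))
    exact tendsto_natCast_atTop_atTop.comp h1
  refine ⟨N, Φ, ?_, ht1, ht2⟩
  have := ht1.sub ht2
  rw [sub_zero] at this
  exact this

end Pool.Agent.Results.MP_37b92f_co.UniversalSequences
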